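import Pool.Agent.Lib.MP_32e6ae_pr.Frog

/-! A bounded degree tree on which simple random walk has positive speed, uniformly over the
starting vertex, but on which the frog model has no transient regime. -/

open MeasureTheory ProbabilityTheory Filter
open scoped ENNReal NNReal

namespace Pool.Agent.Results.MP_32e6ae_pr.NoTransientRegime

open Pool.Agent.Lib.MP_32e6ae_pr

/-- There is a countable infinite tree `G` with all degrees at most `3`, with a root `o`, such that
simple random walk from every vertex satisfies almost surely `dist (o, X n) ≥ c n` for all large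
`n`, with one constant `c > 0`, and such that for every `r > 0` the frog model with Poisson(`r`)
sleeping particles at every non-root vertex is not transient. -/
theorem result :
    ∃ (V : Type) (_ : Countable V) (_ : Infinite V) (_ : MeasurableSpace V)
      (_ : MeasurableSingletonClass V) (G : SimpleGraph V) (o : V),
      G.IsTree ∧ (∀ v, 0 < (G.neighborSet v).encard ∧ (G.neighborSet v).encard ≤ 3) ∧
      (∃ c : ℝ, 0 < c ∧ ∀ v, ∀ᵐ X ∂(srw G v), X 0 = v ∧ (∀ n, G.Adj (X n) (X (n + 1))) ∧
        ∀ᶠ n : ℕ in atTop, c * n ≤ G.dist o (X n)) ∧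
      ∀ r : ℝ≥0, 0 < r → ¬ Transient G o r := by
  refine ⟨Vx, inferInstance, ?_, inferInstance, inferInstance, Vx.G, Vx.o, Vx.pm.isTree, ?_,
    ⟨1 / 20, by norm_num, fun v => ?_⟩, Vx.not_transient⟩
  · exact Infinite.of_injective Vx.ray (fun i j h => by injection h)
  · intro v
    refine ⟨?_, Vx.encard_le v⟩
    rw [← Vx.isNb.coe v, Set.encard_pos]
    exact Vx.isNb.ne v
  · filter_upwards [ae_zero Vx.isNb v, ae_adj Vx.isNb v, Vx.ae_speed v] with X h1 h2 h3
    exact ⟨h1, h2, h3⟩

end Pool.Agent.Results.MP_32e6ae_pr.NoTransientRegime
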